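import Pool.Agent.N728.QU.Dens

set_option autoImplicit false

/-!
# The least prime value of `X² + b X + c - h² - b h`, for almost all `h`

Let `b ≥ 0`, `c ≠ 0`, `c` odd if `b` is odd. For all `η, ε > 0` and all large `H`, for all but at most `ε H` of the
`h ≤ H` the polynomial `f = X² + b X + k`, `k = c - h² - b h`, has a prime value `f(m)` with `m ≤ (1 + η) h`; then
`m² ≤ 2^(L(f) + 1)` for its length `L(f)` (number of binary digits of the coefficients).

Proof (`Agent/N728/QU`): the number of the primes `f(m)`, `m ≤ M`, is `(C / 2) (M - h) / log H` up to a small error, for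
almost all `h`, with `C ≥ κ`.
-/

namespace Pool.Agent.Results.MP_d466de_nt.ThinQuadratics

open Finset Filter Topology

/-- `‖a‖`: the number of binary digits of `|a|`, and `1` for `a = 0`. -/
def digits (a : ℤ) : ℕ := if a = 0 then 1 else Nat.size a.natAbs

/-- The length `L(f)` of `f = X² + b X + k`. -/
def length (b k : ℤ) : ℕ := digits 1 + digits b + digits k

/-- The conclusion for one `h`: `f = X² + b X + k`, `k = c - h² - b h`, has a prime value `f(m)` with
`1 ≤ m ≤ (1 + η) h` and `m² ≤ 2^(L(f) + 1)`. -/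
def Good (η : ℝ) (b : ℕ) (c : ℤ) (h : ℕ) : Prop :=
  ∃ m : ℕ, 1 ≤ m ∧ (m : ℝ) ≤ (1 + η) * h ∧ m ^ 2 ≤ 2 ^ (length b (c - (h : ℤ) ^ 2 - b * h) + 1) ∧
    ((m : ℤ) ^ 2 + b * m + (c - (h : ℤ) ^ 2 - b * h)).toNat.Prime

open Classical in
/-- The number of the `1 ≤ h ≤ H` for which the conclusion fails. -/
noncomputable def exceptions (η : ℝ) (b : ℕ) (c : ℤ) (H : ℕ) : ℕ :=
  ((Icc 1 H).filter (fun h : ℕ => ¬ Good η b c h)).card

lemma digits_pos (a : ℤ) : 1 ≤ digits a := by
  unfold digits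
  split_ifs with h
  · exact le_rfl
  · exact Nat.size_pos.2 (Int.natAbs_pos.2 h)

lemma lt_digits (a : ℤ) : a.natAbs < 2 ^ digits a := by
  unfold digits
  split_ifs with h
  · rw [h]; norm_num
  · exact Nat.lt_size_self _

/-- **Theorem.** -/
theorem result (b : ℕ) (c : ℤ) (hc : c ≠ 0) (hpar : Odd b → Odd c) (η ε : ℝ) (hη : 0 < η) (hε : 0 < ε) :
    ∃ H₀ : ℕ, ∀ H : ℕ, H₀ ≤ H → (exceptions η b c H : ℝ) ≤ ε * H := by
  classical
  obtain ⟨η', hη'⟩ : ∃ η' : ℝ, η' = min η 1 := ⟨_, rfl⟩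
  have hη0 : 0 < η' := by rw [hη']; exact lt_min hη one_pos
  have hη1 : η' ≤ η := by rw [hη']; exact min_le_left _ _
  have hη2 : η' ≤ 1 := by rw [hη']; exact min_le_right _ _
  have hpar' : Even ((1 : ℤ) + b) → Odd c := by
    intro h
    apply hpar
    have h2 : Even ((1 + b : ℕ) : ℤ) := by push_cast; exact h
    rw [Int.even_coe_nat] at h2
    rcases Nat.even_or_odd b with h3 | h3
    · exfalso
      obtain ⟨x, hx⟩ := h2
      obtain ⟨y, hy⟩ := h3
      omega
    · exact h3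
  obtain ⟨κ, hκ, h1⟩ := Pool.Agent.N728.QU.dens b c hc hpar' (ε / 4) (by positivity)
  obtain ⟨δ, hδ⟩ : ∃ δ : ℝ, δ = η' * ε / (32 * (1 + 1 / κ)) := ⟨_, rfl⟩
  have hδ0 : 0 < δ := by rw [hδ]; positivity
  obtain ⟨H1, h2⟩ := h1 δ 2 hδ0
  obtain ⟨H2, hH2⟩ := exists_nat_ge ((8 : ℝ) / (η' * ε))
  obtain ⟨H3, hH3⟩ := exists_nat_ge ((2 * c.natAbs + 4 : ℝ) * 4 / ε)
  refine ⟨max (max H1 H2) (max H3 3), fun H hH => ?_⟩
  have hHa : H1 ≤ H := (le_max_left _ _).trans ((le_max_left _ _).trans hH)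
  have hHb : H2 ≤ H := (le_max_right _ _).trans ((le_max_left _ _).trans hH)
  have hHc : H3 ≤ H := (le_max_left _ _).trans ((le_max_right _ _).trans hH)
  have hHd : 3 ≤ H := (le_max_right _ _).trans ((le_max_right _ _).trans hH)
  have hHr : (3 : ℝ) ≤ H := by exact_mod_cast hHd
  have hlog : 0 < Real.log H := Real.log_pos (by linarith)
  have hHb' : (8 : ℝ) ≤ η' * ε * H := by
    have h5 : (8 : ℝ) / (η' * ε) ≤ H := hH2.trans (by exact_mod_cast hHb)
    rw [div_le_iff₀ (by positivity)] at h5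
    linarith
  have hHc' : (2 * c.natAbs + 4 : ℝ) ≤ ε / 4 * H := by
    have h5 : (2 * c.natAbs + 4 : ℝ) * 4 / ε ≤ H := hH3.trans (by exact_mod_cast hHc)
    rw [div_le_iff₀ hε] at h5
    linarith
  obtain ⟨S, hS1, hS2⟩ := h2 H hHa
  have hsub : (Icc 1 H).filter (fun h : ℕ => ¬ Good η b c h) ⊆ S ∪ Icc 1 ⌊ε / 4 * (H : ℝ)⌋₊ := by
    intro h hh
    rw [mem_filter] at hh
    rw [mem_union]
    by_contra hcon
    rw [not_or] at hcon
    apply hh.2
    have hh1 : 1 ≤ h := (mem_Icc.1 hh.1).1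
    have hhH : h ≤ H := (mem_Icc.1 hh.1).2
    have hbig : ε / 4 * (H : ℝ) < h := by
      by_contra hlt
      push Not at hlt
      exact hcon.2 (mem_Icc.2 ⟨hh1, Nat.le_floor hlt⟩)
    obtain ⟨C, -, hC2, hC3⟩ := hS2 h hh.1 hcon.1
    have hC0 : 0 < C := lt_of_lt_of_le hκ hC2
    obtain ⟨M, hM⟩ : ∃ M : ℕ, M = ⌊(1 + η') * (h : ℝ)⌋₊ := ⟨_, rfl⟩
    have hM1 : (M : ℝ) ≤ (1 + η') * h := by rw [hM]; exact Nat.floor_le (by positivity)
    have hM2 : (1 + η') * (h : ℝ) < M + 1 := by rw [hM]; exact Nat.lt_floor_add_one _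
    have hMH : M ≤ 2 * H := by
      have h5 : (M : ℝ) ≤ 2 * H := by
        have h6 : (h : ℝ) ≤ H := by exact_mod_cast hhH
        calc (M : ℝ) ≤ (1 + η') * h := hM1
          _ ≤ 2 * H := by
            apply mul_le_mul (by linarith) h6 (by positivity) (by norm_num)
      exact_mod_cast h5
    have h6 := hC3 M hMH
    have h7 : η' * ε * H / 8 ≤ max ((M : ℝ) - h) 0 := by
      refine le_trans ?_ (le_max_left _ _)
      have h8 : η' * (ε / 4 * H) ≤ η' * h := mul_le_mul_of_nonneg_left hbig.le hη0.le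
      nlinarith
    have h8 : C / 2 * (η' * ε * H / 8 / Real.log H) ≤ C / 2 * (max ((M : ℝ) - h) 0 / Real.log H) :=
      mul_le_mul_of_nonneg_left (div_le_div_of_nonneg_right h7 hlog.le) (by positivity)
    have h9 : δ * (1 + C) * (H / Real.log H) ≤ C * (η' * ε / 32) * (H / Real.log H) := by
      apply mul_le_mul_of_nonneg_right _ (by positivity)
      have e1 : 1 + C ≤ (1 + 1 / κ) * C := by
        have : 1 ≤ 1 / κ * C := by
          rw [one_div, inv_mul_eq_div, le_div_iff₀ hκ]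
          linarith
        linarith
      calc δ * (1 + C) ≤ δ * ((1 + 1 / κ) * C) := mul_le_mul_of_nonneg_left e1 hδ0.le
        _ = C * (η' * ε / 32) := by
          rw [hδ]
          field_simp
    have h10 : (0 : ℝ) < (Pool.Agent.N728.QU.dcnt b (c - ((h : ℤ) ^ 2 + b * h)) M : ℝ) := by
      have h11 := (abs_le.1 h6).1
      have h12 : (0 : ℝ) < C * (η' * ε / 32) * (H / Real.log H) := by positivity
      have h13 : C / 2 * (η' * ε * H / 8 / Real.log H) = 2 * (C * (η' * ε / 32) * (H / Real.log H)) := by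
        field_simp
        ring
      linarith
    have h11 : 0 < Pool.Agent.N728.QU.dcnt b (c - ((h : ℤ) ^ 2 + b * h)) M := by exact_mod_cast h10
    unfold Pool.Agent.N728.QU.dcnt at h11
    obtain ⟨m, hm⟩ := card_pos.1 h11
    rw [mem_filter, mem_Icc] at hm
    obtain ⟨⟨m1, m2⟩, m3⟩ := hm
    have m2r : (m : ℝ) ≤ M := by exact_mod_cast m2
    have e1 : Pool.Agent.N728.QU.dval b (c - ((h : ℤ) ^ 2 + b * h)) m =
        (m : ℤ) ^ 2 + b * m + (c - (h : ℤ) ^ 2 - b * h) := by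
      unfold Pool.Agent.N728.QU.dval
      ring
    rw [e1] at m3
    refine ⟨m, m1, ?_, ?_, m3⟩
    · calc (m : ℝ) ≤ (1 + η') * h := m2r.trans hM1
        _ ≤ (1 + η) * h := mul_le_mul_of_nonneg_right (by linarith) (by positivity)
    · -- `m ≤ 2 h` and `h² ≤ 2 |k|`
      have g1 : m ≤ 2 * h := by
        have : (m : ℝ) ≤ 2 * h := by
          calc (m : ℝ) ≤ (1 + η') * h := m2r.trans hM1
            _ ≤ 2 * h := mul_le_mul_of_nonneg_right (by linarith) (by positivity)
        exact_mod_cast this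
      have g2 : 2 * c.natAbs + 4 ≤ h := by
        have : (2 * c.natAbs + 4 : ℝ) ≤ h := hHc'.trans hbig.le
        exact_mod_cast this
      obtain ⟨k, hk⟩ : ∃ k : ℤ, k = c - (h : ℤ) ^ 2 - b * h := ⟨_, rfl⟩
      rw [← hk]
      have g3 : h ^ 2 ≤ 2 * k.natAbs := by
        have f1 : (h : ℤ) ^ 2 ≤ 2 * |k| := by
          have f2 : -k ≤ |k| := neg_le_abs k
          have f3 : c ≤ (c.natAbs : ℤ) := Int.le_natAbs
          have f4 : (2 * c.natAbs + 4 : ℤ) ≤ h := by exact_mod_cast g2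
          have f5 : (0 : ℤ) ≤ (b : ℤ) * h := by positivity
          have f6 : (0 : ℤ) ≤ h := Int.natCast_nonneg h
          nlinarith
        rw [Int.abs_eq_natAbs] at f1
        exact_mod_cast f1
      have g4 := lt_digits k
      have g5 : 2 + digits k ≤ length b k := by
        unfold length
        have := digits_pos 1
        have := digits_pos (b : ℤ)
        omega
      calc m ^ 2 ≤ (2 * h) ^ 2 := Nat.pow_le_pow_left g1 2
        _ = 4 * h ^ 2 := by ring
        _ ≤ 4 * (2 * k.natAbs) := Nat.mul_le_mul_left 4 g3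
        _ ≤ 8 * 2 ^ digits k := by omega
        _ = 2 ^ (2 + digits k + 1) := by rw [pow_add, pow_add]; ring
        _ ≤ 2 ^ (length b k + 1) := Nat.pow_le_pow_right (by norm_num) (by omega)
  unfold exceptions
  have e1 := (card_le_card hsub).trans (card_union_le _ _)
  rw [Nat.card_Icc] at e1
  have e2 : (((Icc 1 H).filter (fun h : ℕ => ¬ Good η b c h)).card : ℝ) ≤ S.card + (⌊ε / 4 * (H : ℝ)⌋₊ : ℝ) := by
    exact_mod_cast e1
  have e3 : (⌊ε / 4 * (H : ℝ)⌋₊ : ℝ) ≤ ε / 4 * H := Nat.floor_le (by positivity)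
  have e4 : 0 ≤ ε * (H : ℝ) := by positivity
  linarith

end Pool.Agent.Results.MP_d466de_nt.ThinQuadratics
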